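import Pool.Agent.C2.Final

/-!
# The Klein correspondence over a field, by counting
-/

namespace Pool.Agent.C2.H4.K

open Finset

variable {F : Type} [Field F]

/-- the alternating matrix of a point (a, b) of F^3 x F^3 -/
def Nm (Y : (Fin 3 → F) × (Fin 3 → F)) : Matrix (Fin 4) (Fin 4) F :=
  !![0, Y.1 0, Y.1 1, Y.1 2; -Y.1 0, 0, Y.2 2, -Y.2 1; -Y.1 1, -Y.2 2, 0, Y.2 0;
    -Y.1 2, Y.2 1, -Y.2 0, 0]

/-- the quadratic form -/
def qf (Y : (Fin 3 → F) × (Fin 3 → F)) : F := ∑ i, Y.1 i * Y.2 i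

/-- the polar form -/
def pf (Y Z : (Fin 3 → F) × (Fin 3 → F)) : F := ∑ i, (Y.1 i * Z.2 i + Z.1 i * Y.2 i)

theorem mulrel (Y Z : (Fin 3 → F) × (Fin 3 → F)) :
    Nm Y * Nm Z.swap + Nm Z * Nm Y.swap = -(pf Y Z) • (1 : Matrix (Fin 4) (Fin 4) F) := by
  ext i j
  fin_cases i <;> fin_cases j <;>
    simp [Nm, pf, Matrix.mul_apply, Fin.sum_univ_four, Fin.sum_univ_three] <;> ring

theorem mulself (Y : (Fin 3 → F) × (Fin 3 → F)) :
    Nm Y * Nm Y.swap = -(qf Y) • (1 : Matrix (Fin 4) (Fin 4) F) := by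
  ext i j
  fin_cases i <;> fin_cases j <;>
    simp [Nm, qf, Matrix.mul_apply, Fin.sum_univ_four, Fin.sum_univ_three] <;> ring

theorem Nm_anti (Y : (Fin 3 → F) × (Fin 3 → F)) (i j : Fin 4) : Nm Y i j = - Nm Y j i := by
  fin_cases i <;> fin_cases j <;> simp [Nm]

theorem Nm_diag (Y : (Fin 3 → F) × (Fin 3 → F)) (i : Fin 4) : Nm Y i i = 0 := by
  fin_cases i <;> simp [Nm]

theorem Nm_inj {Y Z : (Fin 3 → F) × (Fin 3 → F)} (h : Nm Y = Nm Z) : Y = Z := by
  have h1 := congrFun (congrFun h 0) 1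
  have h2 := congrFun (congrFun h 0) 2
  have h3 := congrFun (congrFun h 0) 3
  have h4 := congrFun (congrFun h 1) 2
  have h5 := congrFun (congrFun h 3) 1
  have h6 := congrFun (congrFun h 2) 3
  simp [Nm] at h1 h2 h3 h4 h5 h6
  apply Prod.ext
  · funext i; fin_cases i <;> simp [h1, h2, h3]
  · funext i; fin_cases i <;> simp [h4, h5, h6]

theorem Nm_smul (c : F) (Y : (Fin 3 → F) × (Fin 3 → F)) : Nm (c • Y) = c • Nm Y := by
  ext i j
  fin_cases i <;> fin_cases j <;> simp [Nm]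

theorem Nm_zero : Nm (0 : (Fin 3 → F) × (Fin 3 → F)) = 0 := by
  ext i j
  fin_cases i <;> fin_cases j <;> simp [Nm]

theorem exists_entry {Y : (Fin 3 → F) × (Fin 3 → F)} (h : Y ≠ 0) : ∃ i j, Nm Y i j ≠ 0 := by
  by_contra hh
  push Not at hh
  apply h
  apply Nm_inj
  rw [Nm_zero]
  ext i j
  exact hh i j

/-- the line of a null vector -/
noncomputable def Wy (Y : (Fin 3 → F) × (Fin 3 → F)) : Submodule F (Fin 4 → F) :=
  LinearMap.ker (Matrix.mulVecLin (Nm Y.swap))

theorem col_i (Y : (Fin 3 → F) × (Fin 3 → F)) (k : Fin 4) :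
    (Matrix.mulVecLin (Nm Y)) (Pi.single k 1) = fun i => Nm Y i k := by
  funext i
  simp [Matrix.mulVecLin_apply, Matrix.mulVec_single_one]

/-- a nonzero alternating matrix has rank at least 2 -/
theorem rank_ge {Y : (Fin 3 → F) × (Fin 3 → F)} (h : Y ≠ 0) :
    2 ≤ Module.finrank F (LinearMap.range (Matrix.mulVecLin (Nm Y))) := by
  obtain ⟨i, j, hij⟩ := exists_entry h
  have hne : i ≠ j := by
    intro h2; subst h2; exact hij (Nm_diag Y i)
  set v : Fin 2 → LinearMap.range (Matrix.mulVecLin (Nm Y)) :=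
    ![⟨fun k => Nm Y k i, ⟨Pi.single i 1, col_i Y i⟩⟩,
      ⟨fun k => Nm Y k j, ⟨Pi.single j 1, col_i Y j⟩⟩] with hv
  have hli : LinearIndependent F v := by
    rw [LinearIndependent.pair_iff]
    intro a b hab
    have hk : ∀ k, a * Nm Y k i + b * Nm Y k j = 0 := by
      intro k
      have h0 := congrFun (congrArg Subtype.val hab) k
      simpa [hv] using h0
    have h1 := hk i
    have h2 := hk j
    rw [Nm_diag, mul_zero, zero_add] at h1
    rw [Nm_diag, mul_zero, add_zero] at h2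
    have h3 : Nm Y j i ≠ 0 := by rw [Nm_anti]; exact neg_ne_zero.mpr hij
    exact ⟨(mul_eq_zero.mp h2).resolve_right h3, (mul_eq_zero.mp h1).resolve_right hij⟩
  have := hli.fintype_card_le_finrank
  simpa using this

theorem swap_ne {Y : (Fin 3 → F) × (Fin 3 → F)} (h : Y ≠ 0) : Y.swap ≠ 0 := by
  intro h2; apply h
  have := congrArg Prod.swap h2
  simpa using this

theorem range_le {Y : (Fin 3 → F) × (Fin 3 → F)} (h : qf Y = 0) :
    LinearMap.range (Matrix.mulVecLin (Nm Y.swap)) ≤ LinearMap.ker (Matrix.mulVecLin (Nm Y)) := by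
  rintro _ ⟨w, rfl⟩
  rw [LinearMap.mem_ker]
  have := mulself Y
  rw [h] at this
  simp only [Matrix.mulVecLin_apply, Matrix.mulVec_mulVec, this]
  simp

theorem qf_swap (Y : (Fin 3 → F) × (Fin 3 → F)) : qf Y.swap = qf Y := by
  unfold qf
  apply Finset.sum_congr rfl
  intro i _
  simp [mul_comm]

theorem finrank_range {Y : (Fin 3 → F) × (Fin 3 → F)} (h : Y ≠ 0) (hq : qf Y = 0) :
    Module.finrank F (LinearMap.range (Matrix.mulVecLin (Nm Y))) = 2 := by
  have h1 := rank_ge h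
  have h2 := rank_ge (swap_ne h)
  have h3 := Submodule.finrank_mono (range_le hq)
  have h4 := LinearMap.finrank_range_add_finrank_ker (Matrix.mulVecLin (Nm Y))
  have h5 : Module.finrank F (Fin 4 → F) = 4 := by simp
  omega

theorem finrank_ker {Y : (Fin 3 → F) × (Fin 3 → F)} (h : Y ≠ 0) (hq : qf Y = 0) :
    Module.finrank F (LinearMap.ker (Matrix.mulVecLin (Nm Y))) = 2 := by
  have h1 := finrank_range h hq
  have h4 := LinearMap.finrank_range_add_finrank_ker (Matrix.mulVecLin (Nm Y))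
  have h5 : Module.finrank F (Fin 4 → F) = 4 := by simp
  omega

theorem finrank_Wy {Y : (Fin 3 → F) × (Fin 3 → F)} (h : Y ≠ 0) (hq : qf Y = 0) :
    Module.finrank F (Wy Y) = 2 := finrank_ker (swap_ne h) (by rw [qf_swap]; exact hq)

theorem Wy_eq {Y : (Fin 3 → F) × (Fin 3 → F)} (h : Y ≠ 0) (hq : qf Y = 0) :
    Wy Y = LinearMap.range (Matrix.mulVecLin (Nm Y)) := by
  symm
  apply Submodule.eq_of_le_of_finrank_eq
  · have := range_le (Y := Y.swap) (by rw [qf_swap]; exact hq)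
    simpa [Wy] using this
  · rw [finrank_range h hq, finrank_Wy h hq]

theorem ker_eq {Y : (Fin 3 → F) × (Fin 3 → F)} (h : Y ≠ 0) (hq : qf Y = 0) :
    LinearMap.range (Matrix.mulVecLin (Nm Y.swap)) = LinearMap.ker (Matrix.mulVecLin (Nm Y)) := by
  apply Submodule.eq_of_le_of_finrank_eq (range_le hq)
  rw [finrank_range (swap_ne h) (by rw [qf_swap]; exact hq), finrank_ker h hq]

theorem inj_ij {Y : (Fin 3 → F) × (Fin 3 → F)} (h : Y ≠ 0) (hq : qf Y = 0) {i j : Fin 4}
    (hij : Nm Y i j ≠ 0) {w : Fin 4 → F} (hw : w ∈ Wy Y) (h1 : w i = 0) (h2 : w j = 0) :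
    w = 0 := by
  rw [Wy_eq h hq] at hw
  have hji : Nm Y j i ≠ 0 := by rw [Nm_anti]; exact neg_ne_zero.mpr hij
  set R := LinearMap.range (Matrix.mulVecLin (Nm Y)) with hR
  let g : R →ₗ[F] (Fin 2 → F) :=
    LinearMap.pi ![(LinearMap.proj i).comp R.subtype, (LinearMap.proj j).comp R.subtype]
  have hg : ∀ (x : R), g x = ![x.1 i, x.1 j] := by
    intro x; funext k; fin_cases k <;> rfl
  have hs : Function.Surjective g := by
    intro u
    refine ⟨⟨(u 1 / Nm Y j i) • (fun k => Nm Y k i) + (u 0 / Nm Y i j) • (fun k => Nm Y k j),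
      R.add_mem (R.smul_mem _ ⟨Pi.single i 1, col_i Y i⟩)
        (R.smul_mem _ ⟨Pi.single j 1, col_i Y j⟩)⟩, ?_⟩
    rw [hg]
    funext k
    fin_cases k
    · simp [Nm_diag, hij]
    · simp [Nm_diag, hji]
  have hf : Module.finrank F R = Module.finrank F (Fin 2 → F) := by
    rw [hR, finrank_range h hq]; simp
  have hi : Function.Injective g :=
    (LinearMap.injective_iff_surjective_of_finrank_eq_finrank hf).mpr hs
  have h3 : (⟨w, hw⟩ : R) = 0 := by
    apply hi
    rw [hg, map_zero]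
    funext k
    fin_cases k
    · simpa using h1
    · simpa using h2
  exact congrArg Subtype.val h3

theorem Nm_sub (Y Z : (Fin 3 → F) × (Fin 3 → F)) : Nm (Y - Z) = Nm Y - Nm Z := by
  ext i j
  fin_cases i <;> fin_cases j <;> simp [Nm] <;> ring

theorem fiber_smul {Y Z : (Fin 3 → F) × (Fin 3 → F)} (hY : Y ≠ 0) (qY : qf Y = 0)
    (hZ : Z ≠ 0) (qZ : qf Z = 0) (h : Wy Y = Wy Z) : ∃ c : F, c ≠ 0 ∧ Z = c • Y := by
  obtain ⟨i, j, hij⟩ := exists_entry hY
  set c := Nm Z i j / Nm Y i j with hc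
  have hX : ∀ k l, Nm (Z - c • Y) k l = Nm Z k l - c * Nm Y k l := by
    intro k l; rw [Nm_sub, Nm_smul]; rfl
  have hXij : Nm (Z - c • Y) i j = 0 := by
    rw [hX, hc, div_mul_cancel₀ _ hij, sub_self]
  have hcol : ∀ k, (fun l => Nm (Z - c • Y) l k) ∈ Wy Y := by
    intro k
    have h1 : (fun l => Nm Z l k) ∈ Wy Y := by
      rw [h, Wy_eq hZ qZ]; exact ⟨Pi.single k 1, col_i Z k⟩
    have h2 : (fun l => Nm Y l k) ∈ Wy Y := by
      rw [Wy_eq hY qY]; exact ⟨Pi.single k 1, col_i Y k⟩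
    have h3 : (fun l => Nm (Z - c • Y) l k) = (fun l => Nm Z l k) - c • (fun l => Nm Y l k) := by
      funext l
      rw [hX]; rfl
    rw [h3]
    exact (Wy Y).sub_mem h1 ((Wy Y).smul_mem c h2)
  have hci : (fun l => Nm (Z - c • Y) l i) = 0 := by
    apply inj_ij hY qY hij (hcol i)
    · exact Nm_diag _ _
    · show Nm (Z - c • Y) j i = 0
      rw [Nm_anti, hXij, neg_zero]
  have hcj : (fun l => Nm (Z - c • Y) l j) = 0 := by
    apply inj_ij hY qY hij (hcol j)
    · exact hXij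
    · exact Nm_diag _ _
  have h0 : Z - c • Y = 0 := by
    apply Nm_inj
    rw [Nm_zero]
    ext l k
    have : (fun l => Nm (Z - c • Y) l k) = 0 := by
      apply inj_ij hY qY hij (hcol k)
      · show Nm (Z - c • Y) i k = 0
        rw [Nm_anti]
        have := congrFun hci k
        simp only [Pi.zero_apply] at this
        rw [this, neg_zero]
      · show Nm (Z - c • Y) j k = 0
        rw [Nm_anti]
        have := congrFun hcj k
        simp only [Pi.zero_apply] at this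
        rw [this, neg_zero]
    exact congrFun this l
  have h1 : Z = c • Y := sub_eq_zero.mp h0
  refine ⟨c, ?_, h1⟩
  intro hc0
  rw [hc0, zero_smul] at h1
  exact hZ h1

theorem Wy_smul (Y : (Fin 3 → F) × (Fin 3 → F)) {c : F} (hc : c ≠ 0) : Wy (c • Y) = Wy Y := by
  unfold Wy
  have h1 : Nm (c • Y).swap = c • Nm Y.swap := by
    rw [← Nm_smul]; rfl
  rw [h1]
  ext w
  simp only [LinearMap.mem_ker, Matrix.mulVecLin_apply, Matrix.smul_mulVec, smul_eq_zero, hc,
    false_or]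

theorem qf_smul (Y : (Fin 3 → F) × (Fin 3 → F)) (c : F) : qf (c • Y) = c ^ 2 * qf Y := by
  unfold qf
  rw [Finset.mul_sum]
  apply Finset.sum_congr rfl
  intro i _
  simp; ring

theorem disj_iff {Y Z : (Fin 3 → F) × (Fin 3 → F)} (hY : Y ≠ 0) (qY : qf Y = 0)
    (hZ : Z ≠ 0) (qZ : qf Z = 0) : Disjoint (Wy Y) (Wy Z) ↔ pf Y Z ≠ 0 := by
  have hr := mulrel Y Z
  constructor
  · intro hd hp
    rw [hp, neg_zero, zero_smul] at hr
    have htop : Wy Y ⊔ Wy Z = ⊤ := by
      apply Submodule.eq_top_of_finrank_eq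
      have h1 := Submodule.finrank_sup_add_finrank_inf_eq (Wy Y) (Wy Z)
      rw [disjoint_iff.mp hd, finrank_Wy hY qY, finrank_Wy hZ qZ] at h1
      simp at h1 ⊢
      omega
    have hle : LinearMap.range (Matrix.mulVecLin (Nm Y.swap)) ≤
        LinearMap.ker (Matrix.mulVecLin (Nm Z)) := by
      rintro _ ⟨w, rfl⟩
      have hw : w ∈ Wy Y ⊔ Wy Z := by rw [htop]; trivial
      obtain ⟨w1, hw1, w2, hw2, rfl⟩ := Submodule.mem_sup.mp hw
      rw [LinearMap.mem_ker, map_add, map_add]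
      have e1 : (Matrix.mulVecLin (Nm Y.swap)) w1 = 0 := hw1
      have e2 : (Matrix.mulVecLin (Nm Z.swap)) w2 = 0 := hw2
      rw [e1, map_zero, zero_add]
      simp only [Matrix.mulVecLin_apply, Matrix.mulVec_mulVec] at e2 ⊢
      have e3 : Nm Z * Nm Y.swap = - (Nm Y * Nm Z.swap) := by
        rw [eq_neg_iff_add_eq_zero, add_comm]; exact hr
      rw [e3, Matrix.neg_mulVec, ← Matrix.mulVec_mulVec, e2, Matrix.mulVec_zero, neg_zero]
    have heq : LinearMap.range (Matrix.mulVecLin (Nm Y.swap)) =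
        LinearMap.ker (Matrix.mulVecLin (Nm Z)) := by
      apply Submodule.eq_of_le_of_finrank_eq hle
      rw [finrank_range (swap_ne hY) (by rw [qf_swap]; exact qY), finrank_ker hZ qZ]
    rw [ker_eq hY qY] at heq
    have h2 : Wy Y.swap = Wy Z.swap := heq
    obtain ⟨c, hc, hcZ⟩ := fiber_smul (swap_ne hY) (by rw [qf_swap]; exact qY)
      (swap_ne hZ) (by rw [qf_swap]; exact qZ) h2
    have h3 : Z = c • Y := by
      have := congrArg Prod.swap hcZ
      simpa using this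
    rw [h3, Wy_smul Y hc, disjoint_self] at hd
    have h4 := finrank_Wy hY qY
    rw [hd] at h4
    simp at h4
  · intro hp
    rw [Submodule.disjoint_def]
    intro w h1 h2
    have e1 : (Nm Y.swap).mulVec w = 0 := h1
    have e2 : (Nm Z.swap).mulVec w = 0 := h2
    have e3 := congrArg (fun M => M.mulVec w) hr
    simp only [Matrix.add_mulVec, ← Matrix.mulVec_mulVec, e1, e2, Matrix.mulVec_zero, add_zero,
      Matrix.smul_mulVec, Matrix.one_mulVec] at e3
    have e4 := e3.symm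
    rw [smul_eq_zero] at e4
    exact e4.resolve_left (neg_ne_zero.mpr hp)

/-- the wedge product of two vectors -/
def wd (x y : Fin 4 → F) : (Fin 3 → F) × (Fin 3 → F) :=
  (![x 0 * y 1 - y 0 * x 1, x 0 * y 2 - y 0 * x 2, x 0 * y 3 - y 0 * x 3],
   ![x 2 * y 3 - y 2 * x 3, x 3 * y 1 - y 3 * x 1, x 1 * y 2 - y 1 * x 2])

theorem Nm_wd (x y : Fin 4 → F) (k l : Fin 4) : Nm (wd x y) k l = x k * y l - y k * x l := by
  fin_cases k <;> fin_cases l <;> simp [Nm, wd] <;> ring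

theorem qf_wd (x y : Fin 4 → F) : qf (wd x y) = 0 := by
  simp [qf, wd, Fin.sum_univ_three]; ring

theorem mem_wd (x y : Fin 4 → F) : x ∈ Wy (wd x y) ∧ y ∈ Wy (wd x y) := by
  constructor
  · show (Nm (wd x y).swap).mulVec x = 0
    funext k
    fin_cases k <;> simp [Nm, wd, Matrix.mulVec, dotProduct, Fin.sum_univ_four] <;> ring
  · show (Nm (wd x y).swap).mulVec y = 0
    funext k
    fin_cases k <;> simp [Nm, wd, Matrix.mulVec, dotProduct, Fin.sum_univ_four] <;> ring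

theorem surj (W : Submodule F (Fin 4 → F)) (hW : Module.finrank F W = 2) :
    ∃ Y : (Fin 3 → F) × (Fin 3 → F), Y ≠ 0 ∧ qf Y = 0 ∧ Wy Y = W := by
  let b := Module.finBasisOfFinrankEq F W hW
  set x : Fin 4 → F := ((b 0 : W) : Fin 4 → F) with hx
  set y : Fin 4 → F := ((b 1 : W) : Fin 4 → F) with hy
  have hne : wd x y ≠ 0 := by
    intro h0
    have hr : ∀ k l, x k * y l - y k * x l = 0 := by
      intro k l
      rw [← Nm_wd, h0, Nm_zero]; rfl
    have hli := b.linearIndependent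
    have hx0 : x ≠ 0 := by
      intro h
      apply b.ne_zero 0
      exact Subtype.ext h
    obtain ⟨k, hk⟩ := Function.ne_iff.mp hx0
    rw [Fintype.linearIndependent_iff] at hli
    have h1 := hli ![y k, - x k] (by
      rw [Fin.sum_univ_two]
      apply Subtype.ext
      funext l
      have := hr k l
      simp only [Submodule.coe_add, Submodule.coe_smul, Pi.add_apply, Pi.smul_apply, smul_eq_mul,
        Matrix.cons_val_zero, Matrix.cons_val_one, Submodule.coe_zero, Pi.zero_apply]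
      rw [← hx, ← hy]
      linear_combination - this) 1
    simp at h1
    exact hk h1
  refine ⟨wd x y, hne, qf_wd x y, ?_⟩
  symm
  apply Submodule.eq_of_le_of_finrank_eq
  · intro w hw
    have h1 := b.sum_repr ⟨w, hw⟩
    rw [Fin.sum_univ_two] at h1
    have h2 := congrArg Subtype.val h1
    simp only [Submodule.coe_add, Submodule.coe_smul] at h2
    rw [← h2]
    exact (Wy (wd x y)).add_mem ((Wy (wd x y)).smul_mem _ (mem_wd x y).1)
      ((Wy (wd x y)).smul_mem _ (mem_wd x y).2)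
  · rw [hW, finrank_Wy hne (qf_wd x y)]

/-- the nonzero null vectors -/
def N0 (F : Type) [Field F] : Type := {Y : (Fin 3 → F) × (Fin 3 → F) // Y ≠ 0 ∧ qf Y = 0}

/-- the line of a null vector -/
noncomputable def toL (Y : N0 F) : Line F := ⟨Wy Y.1, finrank_Wy Y.2.1 Y.2.2⟩

theorem fiber_equiv (L : Line F) : Nonempty ({Y : N0 F // toL Y = L} ≃ Fˣ) := by
  classical
  obtain ⟨Y0, h1, h2, h3⟩ := surj L.1 L.2
  have hmul : ∀ c : Fˣ, (c.1 • Y0 ≠ 0 ∧ qf (c.1 • Y0) = 0) := by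
    intro c
    refine ⟨smul_ne_zero c.ne_zero h1, ?_⟩
    rw [qf_smul, h2, mul_zero]
  let g : Fˣ → {Y : N0 F // toL Y = L} := fun c =>
    ⟨⟨c.1 • Y0, hmul c⟩, Subtype.ext ((Wy_smul Y0 c.ne_zero).trans h3)⟩
  have hg : Function.Bijective g := by
    constructor
    · intro c d hcd
      have h4 : c.1 • Y0 = d.1 • Y0 := congrArg (fun z => z.1.1) hcd
      have h5 : (c.1 - d.1) • Y0 = 0 := by rw [sub_smul, h4, sub_self]
      rcases smul_eq_zero.mp h5 with h6 | h6
      · exact Units.ext (sub_eq_zero.mp h6)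
      · exact absurd h6 h1
    · rintro ⟨Y, hY⟩
      have h4 : Wy Y0 = Wy Y.1 := by
        rw [h3]; exact (congrArg Subtype.val hY).symm
      obtain ⟨c, hc, hcY⟩ := fiber_smul h1 h2 Y.2.1 Y.2.2 h4
      refine ⟨Units.mk0 c hc, ?_⟩
      apply Subtype.ext
      apply Subtype.ext
      exact hcY.symm
  exact ⟨(Equiv.ofBijective g hg).symm⟩

theorem skew_eq [Fintype F] {V E : Type} [Fintype V] (s t : E → V)
    (hv : ∀ v, ∃ e, s e = v ∨ t e = v) :
    skew F s t = (Fintype.card F - 1) ^ Fintype.card V * homSkew F s t := by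
  classical
  have hne : ∀ Y : V → (Fin 3 → F) × (Fin 3 → F),
      (∀ e, ∑ i, ((Y (s e)).1 i * (Y (t e)).2 i + (Y (t e)).1 i * (Y (s e)).2 i) ≠ 0) →
      ∀ v, Y v ≠ 0 := by
    intro Y hY v h0
    obtain ⟨e, he⟩ := hv v
    apply hY e
    rcases he with he | he
    · rw [he, h0]; simp
    · rw [he, h0]; simp
  have e1 : {Y : V → (Fin 3 → F) × (Fin 3 → F) //
      (∀ v, ∑ i, (Y v).1 i * (Y v).2 i = 0) ∧
      ∀ e, ∑ i, ((Y (s e)).1 i * (Y (t e)).2 i + (Y (t e)).1 i * (Y (s e)).2 i) ≠ 0} ≃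
      {Y : V → N0 F // ∀ e, Disjoint (toL (Y (s e))).1 (toL (Y (t e))).1} :=
    { toFun := fun Y => ⟨fun v => ⟨Y.1 v, hne Y.1 Y.2.2 v, Y.2.1 v⟩, fun e =>
        (disj_iff (hne Y.1 Y.2.2 _) (Y.2.1 _) (hne Y.1 Y.2.2 _) (Y.2.1 _)).mpr (Y.2.2 e)⟩
      invFun := fun Y => ⟨fun v => (Y.1 v).1, fun v => (Y.1 v).2.2, fun e =>
        (disj_iff (Y.1 _).2.1 (Y.1 _).2.2 (Y.1 _).2.1 (Y.1 _).2.2).mp (Y.2 e)⟩
      left_inv := fun Y => rfl
      right_inv := fun Y => rfl }
  have e2 : {Y : V → N0 F // ∀ e, Disjoint (toL (Y (s e))).1 (toL (Y (t e))).1} ≃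
      (Σ L : {L : V → Line F // ∀ e, Disjoint (L (s e)).1 (L (t e)).1},
        ∀ v, {Y : N0 F // toL Y = L.1 v}) :=
    { toFun := fun Y => ⟨⟨fun v => toL (Y.1 v), Y.2⟩, fun v => ⟨Y.1 v, rfl⟩⟩
      invFun := fun Z => ⟨fun v => (Z.2 v).1, fun e => by
        rw [(Z.2 (s e)).2, (Z.2 (t e)).2]; exact Z.1.2 e⟩
      left_inv := fun Y => rfl
      right_inv := by
        rintro ⟨⟨L, hL⟩, f⟩
        obtain ⟨g, h, rfl⟩ : ∃ g : V → N0 F, ∃ h : ∀ v, toL (g v) = L v,
            f = fun v => ⟨g v, h v⟩ := ⟨fun v => (f v).1, fun v => (f v).2, rfl⟩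
        have h1 : L = fun v => toL (g v) := (funext h).symm
        subst h1
        rfl }
  let e3 : ∀ L : {L : V → Line F // ∀ e, Disjoint (L (s e)).1 (L (t e)).1},
      (∀ v, {Y : N0 F // toL Y = L.1 v}) ≃ (V → Fˣ) := fun L =>
    Equiv.piCongrRight (fun v => Classical.choice (fiber_equiv (L.1 v)))
  have e4 := (e1.trans (e2.trans (Equiv.sigmaCongrRight e3))).trans (Equiv.sigmaEquivProd _ _)
  unfold skew homSkew
  rw [Nat.card_congr e4, Nat.card_prod, mul_comm]
  congr 1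
  rw [Nat.card_eq_fintype_card, Fintype.card_fun, Fintype.card_units]

end Pool.Agent.C2.H4.K
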