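import Pool.Agent.C2.Stmts
import Pool.Agent.C2.Final
import Pool.Agent.Helper4_C2.KLE

namespace Pool.Agent.C2.H4

open Finset Pool.Agent.C2

theorem comp_main (hF : FinStmt) (F : Type) [Field F] [Fintype F] (V E : Type) [Fintype V]
    [DecidableEq V] [Fintype E] (s t : E → V) (hl : ∀ e, s e ≠ t e) (h4 : ∀ v, deg s t v = 4)
    (h5 : 5 ≤ Fintype.card V) (v : V) (hc : Conn (delS s t v) (delT s t v) univ) :
    Fintype.card F ^ 2 ∣ zeros F (delS s t v) (delT s t v) ∧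
    Fintype.card F ^ 6 ∣ homSkew F s t ∧
    c2 F (delS s t v) (delT s t v) =
      - ((homSkew F s t / Fintype.card F ^ 6 : ℕ) : ZMod (Fintype.card F)) := by
  obtain ⟨⟨Z, hZ⟩, -, h7⟩ := hF F V E s t hl h4 h5 v hc
  have hv : ∀ w, ∃ e, s e = w ∨ t e = w := by
    intro w
    by_contra hcon
    push Not at hcon
    have h1 := h4 w
    unfold deg at h1
    have h2 : IsEmpty {e // s e = w} := ⟨fun e => (hcon e.1).1 e.2⟩
    have h3 : IsEmpty {e // t e = w} := ⟨fun e => (hcon e.1).2 e.2⟩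
    rw [Nat.card_of_isEmpty, Nat.card_of_isEmpty] at h1
    omega
  have hsk := K.skew_eq (F := F) s t hv
  have hq1 : 1 < Fintype.card F := Fintype.one_lt_card
  set q := Fintype.card F with hq
  have hcast : ((q - 1 : ℕ) : ℤ) = (q : ℤ) - 1 := by
    rw [Nat.cast_sub hq1.le]; simp
  have hskZ : (skew F s t : ℤ) = ((q : ℤ) - 1) ^ Fintype.card V * (homSkew F s t : ℤ) := by
    rw [hsk]; push_cast [hcast]; rfl
  have hcop : IsCoprime ((q : ℤ) ^ 6) (((q : ℤ) - 1) ^ Fintype.card V) := by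
    apply IsCoprime.pow
    exact ⟨1, -1, by ring⟩
  have hdvd : (q : ℤ) ^ 6 ∣ (homSkew F s t : ℤ) := by
    apply hcop.dvd_of_dvd_mul_left
    rw [← hskZ]
    obtain ⟨k, hk⟩ := h7
    refine ⟨q * k + (-1) ^ (Fintype.card V - 1) * Z, ?_⟩
    rw [hZ] at hk
    push_cast at hk
    linear_combination hk
  have hdvd' : q ^ 6 ∣ homSkew F s t := by exact_mod_cast hdvd
  refine ⟨⟨Z, hZ⟩, hdvd', ?_⟩
  obtain ⟨H, hH⟩ := hdvd'
  have hq6 : 0 < q ^ 6 := by positivity
  have hq2 : 0 < q ^ 2 := by positivity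
  unfold c2
  rw [← hq, hZ, hH, Nat.mul_div_cancel_left _ hq2, Nat.mul_div_cancel_left _ hq6]
  obtain ⟨k, hk⟩ := h7
  rw [hskZ, hH, hZ] at hk
  push_cast at hk
  have hq0 : (q : ℤ) ^ 6 ≠ 0 := by positivity
  have hk2 : ((q : ℤ) - 1) ^ Fintype.card V * (H : ℤ) - (-1) ^ (Fintype.card V - 1) * (Z : ℤ) =
      q * k := by
    apply mul_left_cancel₀ hq0
    linear_combination hk
  have hk3 := congrArg (fun z : ℤ => (z : ZMod q)) hk2
  push_cast at hk3
  simp only [CharP.cast_eq_zero, zero_sub, zero_mul] at hk3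
  obtain ⟨n, hn⟩ : ∃ n, Fintype.card V = n + 1 := ⟨Fintype.card V - 1, by omega⟩
  rw [hn, Nat.add_sub_cancel, pow_succ] at hk3
  have hu : ((-1 : ZMod q) ^ n) * ((-1 : ZMod q) ^ n) = 1 := by
    rw [← mul_pow]; simp
  have hk4 : ((-1 : ZMod q) ^ n) * (-(H : ZMod q) - (Z : ZMod q)) = 0 := by
    linear_combination hk3
  have hk5 : -(H : ZMod q) - (Z : ZMod q) = 0 := by
    have := congrArg (fun z => ((-1 : ZMod q) ^ n) * z) hk4
    simp only [mul_zero, ← mul_assoc, hu, one_mul] at this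
    exact this
  linear_combination - hk5

end Pool.Agent.C2.H4
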