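import Pool.Agent.C2.Stmts
import Pool.Agent.C2.Final

namespace Pool.Agent.C2.H4

open Finset Pool.Agent.C2

section

variable {F : Type} [Field F] [Fintype F] {V E : Type} [Fintype V] [DecidableEq V] [Fintype E]

theorem mem_cut (s t : E → V) (y : E → F) :
    y ∈ cut F s t ↔ ∃ u : V → F, ∀ e, u (t e) - u (s e) = y e := by
  unfold cut
  rw [LinearMap.mem_range]
  constructor
  · rintro ⟨u, hu⟩
    exact ⟨u, fun e => congrFun hu e⟩
  · rintro ⟨u, hu⟩
    exact ⟨u, funext hu⟩

theorem mem_perp_cut (s t : E → V) (p : E → F) :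
    p ∈ perp (cut F s t) ↔
      ∀ v, ∑ e, (if t e = v then p e else 0) = ∑ e, (if s e = v then p e else 0) := by
  have key : ∀ u : V → F, ∑ e, p e * (u (t e) - u (s e)) =
      ∑ v, u v * (∑ e, (if t e = v then p e else 0) - ∑ e, (if s e = v then p e else 0)) := by
    intro u
    simp only [mul_sub, Finset.sum_sub_distrib, Finset.mul_sum]
    congr 1
    · rw [Finset.sum_comm]
      apply Finset.sum_congr rfl
      intro e _
      simp only [mul_ite, mul_zero, Finset.sum_ite_eq, Finset.mem_univ, if_true]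
      ring
    · rw [Finset.sum_comm]
      apply Finset.sum_congr rfl
      intro e _
      simp only [mul_ite, mul_zero, Finset.sum_ite_eq, Finset.mem_univ, if_true]
      ring
  constructor
  · intro hp v
    have h1 := hp (fun e => (Pi.single v 1 : V → F) (t e) - (Pi.single v 1 : V → F) (s e))
      ((mem_cut s t _).mpr ⟨Pi.single v 1, fun e => rfl⟩)
    rw [key] at h1
    simp only [Pi.single_apply, ite_mul, one_mul, zero_mul, Finset.sum_ite_eq', Finset.mem_univ,
      if_true] at h1
    exact sub_eq_zero.mp h1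
  · intro h y hy
    obtain ⟨u, hu⟩ := (mem_cut s t y).mp hy
    have h1 : ∑ e, p e * y e = ∑ e, p e * (u (t e) - u (s e)) := by
      apply Finset.sum_congr rfl
      intro e _
      rw [hu]
    rw [h1, key]
    apply Finset.sum_eq_zero
    intro v _
    rw [h v, sub_self, mul_zero]

omit [Fintype V] [DecidableEq V] in
theorem card_np (U : Submodule F (E → F)) :
    Nat.card {x : Fin 4 → E → F // (∀ i, x i ∈ U) ∧ ∃ e, x 0 e * x 3 e = x 1 e * x 2 e} + np U =
      Fintype.card F ^ (4 * Module.finrank F U) := by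
  classical
  have h1 : Nat.card {x : Fin 4 → E → F // ∀ i, x i ∈ U} =
      Fintype.card F ^ (4 * Module.finrank F U) := by
    have e1 : {x : Fin 4 → E → F // ∀ i, x i ∈ U} ≃ (Fin 4 → U) :=
      { toFun := fun x i => ⟨x.1 i, x.2 i⟩
        invFun := fun y => ⟨fun i => (y i).1, fun i => (y i).2⟩
        left_inv := fun x => rfl
        right_inv := fun y => rfl }
    rw [Nat.card_congr e1, Nat.card_pi]
    simp only [Nat.card_eq_fintype_card (α := U)]
    rw [Finset.prod_const, Finset.card_univ, Fintype.card_fin, Module.card_eq_pow_finrank (K := F),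
      ← pow_mul, mul_comm]
  rw [← h1]
  unfold np
  simp only [Nat.card_eq_fintype_card, Fintype.card_subtype]
  rw [← Finset.card_union_of_disjoint]
  · congr 1
    ext x
    simp only [Finset.mem_union, Finset.mem_filter, Finset.mem_univ, true_and]
    constructor
    · rintro (h | h)
      · exact h.1
      · exact h.1
    · intro h
      by_cases h2 : ∃ e, x 0 e * x 3 e = x 1 e * x 2 e
      · exact Or.inl ⟨h, h2⟩
      · right
        push Not at h2
        exact ⟨h, h2⟩
  · rw [Finset.disjoint_filter]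
    rintro x - ⟨-, e, he⟩ ⟨-, h⟩
    exact h e he

theorem card_pos (s t : E → V) (r : V) :
    pos F s t r + Nat.card {x : Fin 4 → V → F // (∀ i, x i r = 0) ∧
      ∀ e, (x 0 (t e) - x 0 (s e)) * (x 3 (t e) - x 3 (s e)) ≠
      (x 1 (t e) - x 1 (s e)) * (x 2 (t e) - x 2 (s e))} =
      Fintype.card F ^ (4 * (Fintype.card V - 1)) := by
  classical
  have h1 : Nat.card {x : Fin 4 → V → F // ∀ i, x i r = 0} =
      Fintype.card F ^ (4 * (Fintype.card V - 1)) := by
    have e1 : {x : Fin 4 → V → F // ∀ i, x i r = 0} ≃ (Fin 4 → ({w : V // w ≠ r} → F)) :=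
      { toFun := fun x i w => x.1 i w.1
        invFun := fun y => ⟨fun i w => if h : w = r then 0 else y i ⟨w, h⟩, fun i => by simp⟩
        left_inv := fun x => by
          apply Subtype.ext
          funext i w
          by_cases h : w = r
          · subst h; simp [x.2 i]
          · simp [h]
        right_inv := fun y => by
          funext i w
          simp [w.2] }
    rw [Nat.card_congr e1, Nat.card_pi]
    simp only [Nat.card_eq_fintype_card (α := ({w : V // w ≠ r} → F))]
    rw [Finset.prod_const, Finset.card_univ, Fintype.card_fin, Fintype.card_fun, ← pow_mul,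
      mul_comm]
    congr 2
    have := Fintype.card_subtype_compl (fun w : V => w = r)
    have h2 : Fintype.card {w : V // w = r} = 1 := by simp
    have h4 : Fintype.card {w : V // w ≠ r} = Fintype.card {w : V // ¬ w = r} := rfl
    omega
  rw [← h1]
  unfold pos
  simp only [Nat.card_eq_fintype_card, Fintype.card_subtype]
  rw [← Finset.card_union_of_disjoint]
  · congr 1
    ext x
    simp only [Finset.mem_union, Finset.mem_filter, Finset.mem_univ, true_and]
    constructor
    · rintro (h | h)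
      · exact h.1
      · exact h.1
    · intro h
      by_cases h2 : ∃ e, (x 0 (t e) - x 0 (s e)) * (x 3 (t e) - x 3 (s e)) =
        (x 1 (t e) - x 1 (s e)) * (x 2 (t e) - x 2 (s e))
      · exact Or.inl ⟨h, h2⟩
      · right
        push Not at h2
        exact ⟨h, h2⟩
  · rw [Finset.disjoint_filter]
    rintro x - ⟨-, e, he⟩ ⟨-, h⟩
    exact h e he

omit [Fintype V] [DecidableEq V] [Fintype E] in
theorem ZP_root (s t : E → V) (r : V) :
    ZP F s t = Fintype.card F ^ 4 * Nat.card {x : Fin 4 → V → F // (∀ i, x i r = 0) ∧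
      ∀ e, (x 0 (t e) - x 0 (s e)) * (x 3 (t e) - x 3 (s e)) ≠
      (x 1 (t e) - x 1 (s e)) * (x 2 (t e) - x 2 (s e))} := by
  unfold ZP
  have e1 : {x : Fin 4 → V → F // ∀ e, (x 0 (t e) - x 0 (s e)) * (x 3 (t e) - x 3 (s e)) ≠
      (x 1 (t e) - x 1 (s e)) * (x 2 (t e) - x 2 (s e))} ≃
      (Fin 4 → F) × {x : Fin 4 → V → F // (∀ i, x i r = 0) ∧
      ∀ e, (x 0 (t e) - x 0 (s e)) * (x 3 (t e) - x 3 (s e)) ≠
      (x 1 (t e) - x 1 (s e)) * (x 2 (t e) - x 2 (s e))} :=
    { toFun := fun x => (fun i => x.1 i r, ⟨fun i w => x.1 i w - x.1 i r, fun i => sub_self _,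
        fun e => by simpa using x.2 e⟩)
      invFun := fun y => ⟨fun i w => y.2.1 i w + y.1 i, fun e => by simpa using y.2.2.2 e⟩
      left_inv := fun x => by
        apply Subtype.ext
        funext i w
        simp
      right_inv := fun y => by
        obtain ⟨c, x, hx, hx2⟩ := y
        refine Prod.ext ?_ (Subtype.ext ?_)
        · funext i; simp [hx i]
        · funext i w; simp [hx i] }
  rw [Nat.card_congr e1, Nat.card_prod]
  congr 1
  rw [Nat.card_eq_fintype_card, Fintype.card_fun, Fintype.card_fin]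

end

theorem rep (hZCU : ZcuStmt) (hCUD : CudStmt) (hMTT : MttStmt) (hDUA : DuaStmt)
    (hPOS : PosStmt) (hZER : ZerStmt) (F : Type) [Field F] [Fintype F] (V E : Type) [Fintype V]
    [DecidableEq V] [Fintype E] (s t : E → V) (hc : Conn s t univ)
    (hE : Fintype.card E + 2 = 2 * Fintype.card V) (hV : 4 ≤ Fintype.card V) (r : V) :
    Fintype.card F ^ 2 ∣ zeros F s t ∧
    zerosD F s t ≡ zeros F s t [MOD Fintype.card F ^ 3] ∧
    mom F s t ≡ zeros F s t [MOD Fintype.card F ^ 3] ∧
    pos F s t r ≡ zeros F s t [MOD Fintype.card F ^ 3] := by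
  classical
  have hne : Nonempty V := ⟨r⟩
  obtain ⟨hd1, hd2, hd3⟩ := hCUD F V E s t hc
  have hr1 : 3 ≤ Module.finrank F (cut F s t) := by omega
  have hr2 : Fintype.card E = 2 * Module.finrank F (cut F s t) := by omega
  have hr3 : 3 ≤ Module.finrank F (perp (cut F s t)) := by omega
  have hr4 : Fintype.card E = 2 * Module.finrank F (perp (cut F s t)) := by omega
  have hz : nz (perp (cut F s t)) = zeros F s t := by
    unfold nz zeros
    apply Nat.card_congr
    apply Equiv.subtypeEquivRight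
    intro b
    rw [(hMTT F V E s t b hc).1, hd3]
  have hzD : nz (cut F s t) = zerosD F s t := by
    unfold nz zerosD
    apply Nat.card_congr
    apply Equiv.subtypeEquivRight
    intro b
    rw [(hMTT F V E s t b hc).2]
  obtain ⟨⟨m1, hm1⟩, hQ⟩ := hZER F E (perp (cut F s t)) hr3 hr4
  obtain ⟨⟨m2, hm2⟩, -⟩ := hZER F E (cut F s t) hr1 hr2
  obtain ⟨m3, hm3⟩ := hDUA F E (cut F s t) hr1 hr2
  obtain ⟨m4, hm4⟩ := hPOS F E (cut F s t) hr1 hr2
  obtain ⟨m5, hm5⟩ := hPOS F E (perp (cut F s t)) hr3 hr4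
  rw [hz] at hm1 hQ
  rw [hzD] at hm2
  have hq : 0 < Fintype.card F := Fintype.card_pos
  have hmom : mom F s t + np (perp (cut F s t)) =
      Fintype.card F ^ (4 * Module.finrank F (perp (cut F s t))) := by
    rw [← card_np (perp (cut F s t))]
    congr 1
    unfold mom
    apply Nat.card_congr
    apply Equiv.subtypeEquivRight
    intro p
    simp only [mem_perp_cut]
  have hpos := card_pos (F := F) s t r
  have hZP := hZCU F V E s t hc
  rw [ZP_root (F := F) s t r] at hZP
  have hZP2 := mul_left_cancel₀ (pow_ne_zero 4 hq.ne') hZP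
  rw [hZP2] at hpos
  have hp1 : ∃ k : ℤ, ((Fintype.card F ^ (4 * Module.finrank F (perp (cut F s t))) : ℕ) : ℤ) =
      (Fintype.card F : ℤ) ^ 3 * k := by
    have : Fintype.card F ^ 3 ∣ Fintype.card F ^ (4 * Module.finrank F (perp (cut F s t))) :=
      pow_dvd_pow _ (by omega)
    obtain ⟨k, hk⟩ := this
    exact ⟨k, by rw [hk]; push_cast; ring⟩
  have hp2 : ∃ k : ℤ, ((Fintype.card F ^ (4 * (Fintype.card V - 1)) : ℕ) : ℤ) =
      (Fintype.card F : ℤ) ^ 3 * k := by
    have : Fintype.card F ^ 3 ∣ Fintype.card F ^ (4 * (Fintype.card V - 1)) :=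
      pow_dvd_pow _ (by omega)
    obtain ⟨k, hk⟩ := this
    exact ⟨k, by rw [hk]; push_cast; ring⟩
  obtain ⟨k1, hk1⟩ := hp1
  obtain ⟨k2, hk2⟩ := hp2
  have hmomZ : (mom F s t : ℤ) + (np (perp (cut F s t)) : ℤ) = (Fintype.card F : ℤ) ^ 3 * k1 := by
    rw [← hk1, ← hmom]; push_cast; ring
  have hposZ : (pos F s t r : ℤ) + (np (cut F s t) : ℤ) = (Fintype.card F : ℤ) ^ 3 * k2 := by
    rw [← hk2, ← hpos]; push_cast; ring
  refine ⟨hQ, ?_, ?_, ?_⟩
  · rw [Nat.modEq_iff_dvd]
    push_cast
    exact ⟨m1 - m2 + m3, by linarith⟩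
  · rw [Nat.modEq_iff_dvd]
    push_cast
    exact ⟨m1 - m5 - k1, by linarith⟩
  · rw [Nat.modEq_iff_dvd]
    push_cast
    exact ⟨m1 + m3 - m4 - k2, by linarith⟩

end Pool.Agent.C2.H4
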