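import Pool.Agent.C2.Stmts

namespace Pool.Agent.C2.H4

open Finset Pool.Agent.C2

section

variable {V E F : Type} [Field F] [Fintype V] [DecidableEq V] [Fintype E] [DecidableEq E]

theorem lap_mat (s t : E → V) (b : E → F) (d u : V → F) (x : V) :
    Lap s t b d u x = ∑ y, LapM s t b d x y * u y := by
  unfold Lap LapM
  simp only [add_mul, Finset.sum_add_distrib, ite_mul, zero_mul, Finset.sum_ite_eq,
    Finset.mem_univ, if_true, Finset.sum_mul]
  congr 1
  rw [Finset.sum_comm]
  apply Finset.sum_congr rfl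
  intro e _
  have h1 : ∀ y, b e * ((if s e = x ∧ t e = y then (1 : F) else 0) +
      (if t e = x ∧ s e = y then 1 else 0)) * u y =
      b e * (if t e = y then (if s e = x then u y else 0) else 0) +
      b e * (if s e = y then (if t e = x then u y else 0) else 0) := by
    intro y
    simp only [ite_and]
    split_ifs <;> ring
  simp only [h1, Finset.sum_add_distrib, ← Finset.mul_sum, Finset.sum_ite_eq, Finset.mem_univ,
    if_true]
  ring

theorem lapM_symm (s t : E → V) (b : E → F) (d : V → F) (x y : V) :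
    LapM s t b d x y = LapM s t b d y x := by
  unfold LapM
  congr 1
  · by_cases h : x = y
    · subst h; rfl
    · rw [if_neg h, if_neg (fun h2 => h h2.symm)]
  · apply Finset.sum_congr rfl
    intro e _
    congr 1
    rw [add_comm]
    congr 1
    · simp only [and_comm]
    · simp only [and_comm]

theorem bd_sum {X J : Type} [Fintype X] [DecidableEq X] [Fintype J] (o : J → X) (b : J → F)
    (u : X → F) : ∑ x, bd o b x * u x = ∑ j, b j * u (o j) := by
  unfold bd
  simp only [Finset.sum_mul]
  rw [Finset.sum_comm]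
  apply Finset.sum_congr rfl
  intro j _
  simp only [ite_mul, zero_mul, Finset.sum_ite_eq, Finset.mem_univ, if_true]

theorem lap_at (s t : E → V) (hl : ∀ e, s e ≠ t e) (v : V) (b : E → F) (d u : V → F) :
    Lap s t b d u v = d v * u v +
      ∑ x, bd (oth s t hl v) (fun e => b e.1) x * u x.1 := by
  rw [bd_sum (oth s t hl v) (fun e => b e.1) (fun x => u x.1)]
  unfold Lap
  congr 1
  rw [← Fintype.sum_subtype_add_sum_subtype (fun e : E => s e ≠ v ∧ t e ≠ v)]
  have h0 : ∑ e : {e : E // s e ≠ v ∧ t e ≠ v}, b e.1 * ((if s e.1 = v then u (t e.1) else 0) +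
      (if t e.1 = v then u (s e.1) else 0)) = 0 := by
    apply Finset.sum_eq_zero
    intro e _
    rw [if_neg e.2.1, if_neg e.2.2]; ring
  rw [h0, zero_add]
  apply Finset.sum_congr rfl
  intro e _
  unfold oth
  by_cases h : s e.1 = v
  · have h2 : t e.1 ≠ v := fun h3 => hl e.1 (h.trans h3.symm)
    simp [h, h2]
  · have h2 : t e.1 = v := by
      by_contra h3
      exact e.2 ⟨h, h3⟩
    simp [h, h2]

theorem lap_off (s t : E → V) (hl : ∀ e, s e ≠ t e) (v : V) (b : E → F) (d u : V → F)
    (x : {w : V // w ≠ v}) :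
    Lap s t b d u x.1 = Lap (delS s t v) (delT s t v) (fun e => b e.1) (fun w => d w.1)
      (fun w => u w.1) x + bd (oth s t hl v) (fun e => b e.1) x * u v := by
  unfold Lap bd
  rw [← Fintype.sum_subtype_add_sum_subtype (fun e : E => s e ≠ v ∧ t e ≠ v), ← add_assoc]
  congr 1
  · congr 1
    apply Finset.sum_congr rfl
    intro e _
    congr 1
    congr 1
    · by_cases h : s e.1 = x.1
      · rw [if_pos h, if_pos (Subtype.ext h)]; rfl
      · rw [if_neg h, if_neg (fun h2 => h (congrArg Subtype.val h2))]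
    · by_cases h : t e.1 = x.1
      · rw [if_pos h, if_pos (Subtype.ext h)]; rfl
      · rw [if_neg h, if_neg (fun h2 => h (congrArg Subtype.val h2))]
  · rw [Finset.sum_mul]
    apply Finset.sum_congr rfl
    intro e _
    have hx := x.2
    unfold oth
    by_cases h : s e.1 = v
    · have h2 : ¬ (s e.1 = x.1) := by rw [h]; exact fun h3 => hx h3.symm
      rw [if_neg h2]
      simp only [h, dite_true]
      by_cases h4 : t e.1 = x.1
      · rw [if_pos h4, if_pos (Subtype.ext h4)]; ring
      · rw [if_neg h4, if_neg (fun h5 => h4 (congrArg Subtype.val h5))]; ring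
    · have h2 : t e.1 = v := by
        by_contra h3
        exact e.2 ⟨h, h3⟩
      have h3 : ¬ (t e.1 = x.1) := by rw [h2]; exact fun h3 => hx h3.symm
      rw [if_neg h3]
      simp only [h, dite_false]
      by_cases h4 : s e.1 = x.1
      · rw [if_pos h4, if_pos (Subtype.ext h4), h2]; ring
      · rw [if_neg h4, if_neg (fun h5 => h4 (congrArg Subtype.val h5))]; ring

theorem lap_iff (s t : E → V) (hl : ∀ e, s e ≠ t e) (v : V) (b : E → F) (d u : V → F) :
    (∀ x, Lap s t b d u x = 0) ↔
    (d v * u v + ∑ x, bd (oth s t hl v) (fun e => b e.1) x * u x.1 = 0 ∧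
      ∀ x, Lap (delS s t v) (delT s t v) (fun e => b e.1) (fun w => d w.1) (fun w => u w.1) x +
        bd (oth s t hl v) (fun e => b e.1) x * u v = 0) := by
  constructor
  · intro h
    refine ⟨?_, fun x => ?_⟩
    · rw [← lap_at]; exact h v
    · rw [← lap_off]; exact h x.1
  · rintro ⟨h1, h2⟩ x
    by_cases hx : x = v
    · subst hx; rw [lap_at s t hl]; exact h1
    · have := h2 ⟨x, hx⟩
      rw [← lap_off] at this
      exact this

end

theorem spl : SplStmt := by
  intro F _ _ V E _ _ _ _ s t hl v b d
  refine ⟨?_, fun u => lap_iff s t hl v b d u, fun u x => lap_mat s t b d u x,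
    fun x y => lapM_symm s t b d x y⟩
  unfold kerL cE
  apply Nat.card_congr
  refine Equiv.trans (Equiv.subtypeEquiv (Equiv.funSplitAt v F) (q := fun p =>
    d v * p.1 + ∑ x, bd (oth s t hl v) (fun e => b e.1) x * p.2 x = 0 ∧
    ∀ x, ∑ y, LapM (delS s t v) (delT s t v) (fun e => b e.1) (fun w => d w.1) x y * p.2 y +
      bd (oth s t hl v) (fun e => b e.1) x * p.1 = 0) ?_) (Equiv.refl _)
  intro u
  rw [lap_iff s t hl v b d u]
  simp only [← lap_mat]
  rfl

end Pool.Agent.C2.H4
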