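import Pool.Agent.C2.Stmts

namespace Pool.Agent.C2.H4

open Finset Pool.Agent.C2

theorem wt_split {F E : Type} [Field F] [Fintype F] [DecidableEq F] [Fintype E] [DecidableEq E]
    (p : E → Prop) [DecidablePred p] (b : E → F) :
    wt b = wt (fun e : {e // p e} => b e.1) * wt (fun e : {e // ¬ p e} => b e.1) := by
  unfold wt
  rw [← Fintype.prod_subtype_mul_prod_subtype p]

theorem sum : SumStmt := by
  intro F _ _ _ V E _ _ _ _ s t v f
  have h1 : ∀ b : E → F, ∑ d : V → F, wt b * f (fun e => b e.1) (fun e => b e.1)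
      (fun w => d w.1) (d v) =
      ∑ d1 : {w : V // w ≠ v} → F, ∑ a : F, wt b * f (fun e => b e.1) (fun e => b e.1) d1 a := by
    intro b
    rw [Finset.sum_comm, ← Fintype.sum_prod_type']
    exact Fintype.sum_equiv (Equiv.funSplitAt v F) _ _ (fun d => rfl)
  simp only [h1]
  have h2 : ∀ g : ({e : E // s e ≠ v ∧ t e ≠ v} → F) → ({e : E // ¬ (s e ≠ v ∧ t e ≠ v)} → F) → ℤ,
      ∑ b : E → F, g (fun e => b e.1) (fun e => b e.1) = ∑ b1, ∑ b2, g b1 b2 := by
    intro g
    rw [← Fintype.sum_prod_type']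
    exact Fintype.sum_equiv (Equiv.piEquivPiSubtypeProd (fun e : E => s e ≠ v ∧ t e ≠ v)
      (fun _ => F)) _ _ (fun b => rfl)
  have h3 := h2 (fun b1 b2 => ∑ d1 : {w : V // w ≠ v} → F, ∑ a : F, (wt b1 * wt b2) * f b1 b2 d1 a)
  simp only [← wt_split (fun e : E => s e ≠ v ∧ t e ≠ v)] at h3
  rw [h3]
  apply Finset.sum_congr rfl
  intro b1 _
  rw [Finset.sum_comm]
  apply Finset.sum_congr rfl
  intro d1 _
  rw [Finset.mul_sum]
  apply Finset.sum_congr rfl
  intro b2 _
  rw [Finset.mul_sum]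
  apply Finset.sum_congr rfl
  intro a _
  ring

end Pool.Agent.C2.H4
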