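import Pool.Agent.Helper4_C2.FIN
import Pool.Agent.Helper4_C2.SPL
import Pool.Agent.Helper4_C2.SUM
import Pool.Agent.Helper49_C2.KDW
import Pool.Agent.Helper8_C2.AK3
import Pool.Agent.Helper23_C2.AK2
import Pool.Agent.Helper46_C2.ABS
import Pool.Agent.Helper95_C2.ABT
import Pool.Agent.Helper47_C2.DIV
import Pool.Agent.Helper40_C2.ELI
import Pool.Agent.Helper50_C2.SIZ
import Pool.Agent.Helper89_C2.INC
import Pool.Agent.Helper76_C2.NQS
import Pool.Agent.Helper26_C2.ZPL
import Pool.Agent.Helper19_C2.SAL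
import Pool.Agent.Helper39_C2.ZCU
import Pool.Agent.Helper50_C2.CUD
import Pool.Agent.Helper97_C2.MTT
import Pool.Agent.Helper50_C2.ZER
import Pool.Agent.Helper98_C2.DUA
import Pool.Agent.Helper98_C2.POS
import Pool.Agent.Helper4_C2.Comp
import Pool.Agent.Helper4_C2.Rep

namespace Pool.Agent.C2.H4

open Pool.Agent.C2

theorem allABS : AbsStmt := H46.abs H49.kdw H8.ak3

theorem allDIV : DivStmt := H47.div (H95.abt H49.kdw H23.ak2)

theorem allELI : EliStmt := H40.eli allABS spl sum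

theorem allSIZ : SizStmt := H50.siz allDIV spl sum

theorem allFIN : FinStmt :=
  fin allELI allSIZ H89.inc (H76.nqs H49.kdw) (H26.zpl H49.kdw) H19.sal H39.zcu H50.cud H97.mtt
    H98.dua H98.pos H50.zer

end Pool.Agent.C2.H4
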