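import Pool.Agent.C2.Stmts

namespace Pool.Agent.C2.H4

open Finset Pool.Agent.C2

section Count

variable {V E : Type} [Fintype V] [DecidableEq V] [Fintype E]

theorem card_at (s t : E → V) (hl : ∀ e, s e ≠ t e) (v : V) :
    Fintype.card {e : E // ¬ (s e ≠ v ∧ t e ≠ v)} = deg s t v := by
  classical
  unfold deg
  rw [Nat.card_eq_fintype_card, Nat.card_eq_fintype_card, ← Fintype.card_sum]
  apply Fintype.card_congr
  refine
    { toFun := fun e => if h : s e.1 = v then Sum.inl ⟨e.1, h⟩ else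
        Sum.inr ⟨e.1, by
          have := e.2
          by_contra h2
          exact this ⟨h, h2⟩⟩
      invFun := fun x => match x with
        | Sum.inl e => ⟨e.1, fun h => h.1 e.2⟩
        | Sum.inr e => ⟨e.1, fun h => h.2 e.2⟩
      left_inv := ?_
      right_inv := ?_ }
  · intro e
    by_cases h : s e.1 = v
    · simp [h]
    · simp [h]
  · rintro (e | e)
    · simp [e.2]
    · have : s e.1 ≠ v := fun h => hl e.1 (h.trans e.2.symm)
      simp [this]

theorem sum_deg (s t : E → V) : ∑ v, deg s t v = 2 * Fintype.card E := by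
  classical
  unfold deg
  rw [Finset.sum_add_distrib]
  have h1 : ∀ f : E → V, ∑ v, Nat.card {e // f e = v} = Fintype.card E := by
    intro f
    have := Fintype.card_congr (Equiv.sigmaFiberEquiv f)
    rw [← this, Fintype.card_sigma]
    apply Finset.sum_congr rfl
    intro v _
    rw [Nat.card_eq_fintype_card]
  rw [h1, h1]; ring

theorem card_E (s t : E → V) (h4 : ∀ v, deg s t v = 4) : Fintype.card E = 2 * Fintype.card V := by
  have h := sum_deg s t
  simp only [h4] at h
  simp at h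
  omega

theorem card_E' (s t : E → V) (hl : ∀ e, s e ≠ t e) (v : V) :
    Fintype.card {e : E // s e ≠ v ∧ t e ≠ v} + deg s t v = Fintype.card E := by
  rw [← card_at s t hl v]
  have := Fintype.card_subtype_compl (fun e : E => (s e ≠ v ∧ t e ≠ v))
  have h2 := Fintype.card_subtype_le (fun e : E => (s e ≠ v ∧ t e ≠ v))
  omega

theorem card_V' (v : V) : Fintype.card {w : V // w ≠ v} + 1 = Fintype.card V := by
  have := Fintype.card_subtype_compl (fun w : V => w = v)
  have h2 : Fintype.card {w : V // w = v} = 1 := by simp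
  have h3 : 0 < Fintype.card V := Fintype.card_pos_iff.mpr ⟨v⟩
  have h4 : Fintype.card {w : V // w ≠ v} = Fintype.card {w : V // ¬ w = v} := rfl
  omega

theorem deg_del (s t : E → V) (v : V) (i : {w : V // w ≠ v})
    (hn : ∀ e : E, ¬ (s e ≠ v ∧ t e ≠ v) → s e ≠ i.1 ∧ t e ≠ i.1) :
    deg (delS s t v) (delT s t v) i = deg s t i.1 := by
  classical
  unfold deg
  congr 1
  · apply Nat.card_congr
    refine
      { toFun := fun e => ⟨e.1.1, congrArg Subtype.val e.2⟩
        invFun := fun e => ⟨⟨e.1, by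
          by_contra h
          exact (hn e.1 h).1 e.2⟩, Subtype.ext e.2⟩
        left_inv := fun e => by ext; rfl
        right_inv := fun e => by ext; rfl }
  · apply Nat.card_congr
    refine
      { toFun := fun e => ⟨e.1.1, congrArg Subtype.val e.2⟩
        invFun := fun e => ⟨⟨e.1, by
          by_contra h
          exact (hn e.1 h).2 e.2⟩, Subtype.ext e.2⟩
        left_inv := fun e => by ext; rfl
        right_inv := fun e => by ext; rfl }

end Count

theorem arith (q sk si sa np z Q : ℤ) (n : ℕ) (k m : ℤ)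
    (h1 : sk = (q ^ 3 - 1) * (q ^ 2 + 1) * q ^ 2 * si)
    (h2 : si = sa + q ^ 5 * k)
    (h3 : sa = (q - 1) ^ n * (q ^ 2 * np))
    (h4 : np = -z + q ^ 3 * m) (h5 : z = q ^ 2 * Q) :
    q ^ 7 ∣ sk - (-1) ^ n * q ^ 4 * z := by
  have hq : ∃ c, (q - 1) ^ n = (-1) ^ n + q * c := by
    have h : (q : ℤ) ∣ (q - 1) ^ n - (-1) ^ n := by
      have := sub_dvd_pow_sub_pow (q - 1) (-1) n
      simpa using this
    obtain ⟨c, hc⟩ := h
    exact ⟨c, by linarith⟩
  obtain ⟨c, hc⟩ := hq
  subst h1 h2 h3 h4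
  rw [hc, h5]
  generalize ((-1 : ℤ)) ^ n = g
  refine ⟨(q ^ 3 - 1) * (q ^ 2 + 1) * k + (q ^ 3 - 1) * (q ^ 2 + 1) * (g + q * c) * m
    - (q ^ 3 - 1) * (q ^ 2 + 1) * c * Q - (q ^ 4 + q ^ 2 - q) * g * Q, ?_⟩
  ring

theorem fin
    (hELI : EliStmt) (hSIZ : SizStmt) (hINC : IncStmt) (hNQS : NqsStmt) (hZPL : ZplStmt)
    (hSAL : SalStmt) (hZCU : ZcuStmt) (hCUD : CudStmt) (hMTT : MttStmt)
    (hDUA : DuaStmt) (hPOS : PosStmt) (hZER : ZerStmt) : FinStmt := by
  classical
  intro F _ _ V E _ _ _ s t hl h4 h5 v hc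
  have hcV := card_V' v
  have hcE := card_E s t h4
  have hcE' := card_E' s t hl v
  have hat := card_at s t hl v
  rw [h4 v] at hcE' hat
  have hne : Nonempty {w : V // w ≠ v} := by
    apply Fintype.card_pos_iff.mp
    omega
  have hl' : ∀ e, (delS s t v) e ≠ (delT s t v) e := by
    intro e h
    exact hl e.1 (congrArg Subtype.val h)
  obtain ⟨hd1, hd2, hd3⟩ := hCUD F {w : V // w ≠ v} {e : E // s e ≠ v ∧ t e ≠ v} (delS s t v) (delT s t v) hc
  have hr1 : 3 ≤ Module.finrank F (cut F (delS s t v) (delT s t v)) := by omega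
  have hr2 : Fintype.card {e : E // s e ≠ v ∧ t e ≠ v} = 2 * Module.finrank F (cut F (delS s t v) (delT s t v)) := by omega
  have hr3 : 3 ≤ Module.finrank F (perp (cut F (delS s t v) (delT s t v))) := by omega
  have hr4 : Fintype.card {e : E // s e ≠ v ∧ t e ≠ v} = 2 * Module.finrank F (perp (cut F (delS s t v) (delT s t v))) := by omega
  -- zeros
  have hz : nz (perp (cut F (delS s t v) (delT s t v))) = zeros F (delS s t v) (delT s t v) := by
    unfold nz zeros
    apply Nat.card_congr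
    apply Equiv.subtypeEquivRight
    intro b
    rw [(hMTT F {w : V // w ≠ v} {e : E // s e ≠ v ∧ t e ≠ v} (delS s t v) (delT s t v) b hc).1, hd3]
  have hzD : nz (cut F (delS s t v) (delT s t v)) = zerosD F (delS s t v) (delT s t v) := by
    unfold nz zerosD
    apply Nat.card_congr
    apply Equiv.subtypeEquivRight
    intro b
    rw [(hMTT F {w : V // w ≠ v} {e : E // s e ≠ v ∧ t e ≠ v} (delS s t v) (delT s t v) b hc).2]
  obtain ⟨⟨m1, hm1⟩, ⟨Q, hQ⟩⟩ := hZER F {e : E // s e ≠ v ∧ t e ≠ v} (perp (cut F (delS s t v) (delT s t v))) hr3 hr4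
  obtain ⟨⟨m2, hm2⟩, -⟩ := hZER F {e : E // s e ≠ v ∧ t e ≠ v} (cut F (delS s t v) (delT s t v)) hr1 hr2
  obtain ⟨m3, hm3⟩ := hDUA F {e : E // s e ≠ v ∧ t e ≠ v} (cut F (delS s t v) (delT s t v)) hr1 hr2
  obtain ⟨m4, hm4⟩ := hPOS F {e : E // s e ≠ v ∧ t e ≠ v} (cut F (delS s t v) (delT s t v)) hr1 hr2
  rw [hz] at hm1 hQ
  rw [hzD] at hm2
  refine ⟨⟨Q, hQ⟩, ⟨m1 - m2 + m3, by linarith⟩, ?_⟩
  -- the elimination
  have e1 := hNQS F V E s t hcE
  have e2 := hELI F V E s t hl v hat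
  have e3 := hINC F {w : V // w ≠ v} {e : E // s e ≠ v ∧ t e ≠ v} (delS s t v) (delT s t v) {e : E // ¬ (s e ≠ v ∧ t e ≠ v)} (oth s t hl v)
  have e4 : (Fintype.card F : ℤ) ^ 5 ∣ SI F (delS s t v) (delT s t v) (oth s t hl v) ∅ - SA F (delS s t v) (delT s t v) := by
    rw [e3]
    rw [← Finset.add_sum_erase _ _ (Finset.mem_univ (∅ : Finset {w : V // w ≠ v}))]
    simp only [Finset.card_empty, pow_zero, one_mul, sub_add_cancel_left]
    rw [dvd_neg]
    apply Finset.dvd_sum
    intro I hI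
    apply Dvd.dvd.mul_left
    have hI0 : I ≠ ∅ := (Finset.mem_erase.mp hI).1
    obtain ⟨i, hi⟩ := Finset.nonempty_iff_ne_empty.mpr hI0
    have : Nonempty {e : E // ¬ (s e ≠ v ∧ t e ≠ v)} := by
      apply Fintype.card_pos_iff.mp
      omega
    apply hSIZ F {w : V // w ≠ v} {e : E // s e ≠ v ∧ t e ≠ v} (delS s t v) (delT s t v) hl' _ (oth s t hl v) I i hi
    by_cases hj : ∃ j, (oth s t hl v) j = i
    · exact Or.inl hj
    · right
      rw [card_at (delS s t v) (delT s t v) hl' i, deg_del s t v i, h4]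
      intro e he
      have h6 : (oth s t hl v) ⟨e, he⟩ ≠ i := fun h => hj ⟨_, h⟩
      unfold oth at h6
      by_cases h7 : s e = v
      · simp only [h7, dite_true] at h6
        refine ⟨?_, fun h8 => h6 (Subtype.ext h8)⟩
        rw [h7]; exact fun h8 => i.2 h8.symm
      · simp only [h7, dite_false] at h6
        refine ⟨fun h8 => h6 (Subtype.ext h8), ?_⟩
        have h9 : t e = v := by
          by_contra h10
          exact he ⟨h7, h10⟩
        rw [h9]; exact fun h8 => i.2 h8.symm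
  obtain ⟨k, hk⟩ := e4
  have e5 := hSAL F {w : V // w ≠ v} {e : E // s e ≠ v ∧ t e ≠ v} (delS s t v) (delT s t v) hl'
  have e6 := hZPL F {w : V // w ≠ v} {e : E // s e ≠ v ∧ t e ≠ v} (delS s t v) (delT s t v)
  have e7 := hZCU F {w : V // w ≠ v} {e : E // s e ≠ v ∧ t e ≠ v} (delS s t v) (delT s t v) hc
  have hq : (Fintype.card F : ℤ) ≠ 0 := by
    have : 0 < Fintype.card F := Fintype.card_pos
    exact_mod_cast this.ne'
  have e8 : ∑ b : {e : E // s e ≠ v ∧ t e ≠ v} → F, wt b * (kerG (delS s t v) (delT s t v) b : ℤ) ^ 2 =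
      (Fintype.card F : ℤ) ^ 2 * (np (cut F (delS s t v) (delT s t v)) : ℤ) := by
    have h10 : (Fintype.card F : ℤ) ^ (2 * Fintype.card {w : V // w ≠ v}) ≠ 0 := pow_ne_zero _ hq
    apply mul_left_cancel₀ h10
    rw [e6, e7]
    push_cast
    have h11 : 2 * Fintype.card {w : V // w ≠ v} = Fintype.card {e : E // s e ≠ v ∧ t e ≠ v} + 2 := by omega
    rw [h11]; ring
  have hn : Fintype.card V - 1 = Fintype.card {w : V // w ≠ v} := by omega
  rw [hn]
  refine arith (Fintype.card F : ℤ) (skew F s t : ℤ) (SI F (delS s t v) (delT s t v) (oth s t hl v) ∅) (SA F (delS s t v) (delT s t v))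
    (np (cut F (delS s t v) (delT s t v)) : ℤ) (zeros F (delS s t v) (delT s t v) : ℤ) (Q : ℤ) (Fintype.card {w : V // w ≠ v}) k (m1 + m3 - m4)
    ?_ ?_ ?_ ?_ ?_
  · rw [← e1, e2]
  · linarith
  · rw [e5, e8]
  · linarith
  · rw [hQ]; push_cast; ring

end Pool.Agent.C2.H4
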